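import Pool.Agent.Y546.WQ.Stm3

/-! Project WH: the exponent of the relation for a palindromic polynomial. -/

set_option autoImplicit false

namespace Pool.Agent.Y468.WQ

open Polynomial Pool.Agent.Y546.WQ

lemma palin {R : Type*} [CommRing R] (m : ℕ) (f : R[X]) (hd : f.natDegree ≤ m)
    (hr : f.reflect m = f) : 2 * f.derivative.eval 1 = m * f.eval 1 := by
  have hc : ∀ j ∈ Finset.range (m + 1), f.coeff (m - j) = f.coeff j := by
    intro j hj
    have hj' : j ≤ m := Nat.lt_succ_iff.1 (Finset.mem_range.1 hj)
    have h1 := congrArg (fun g => g.coeff j) hr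
    simp only [coeff_reflect, revAt_le hj'] at h1
    exact h1
  have hf : f = ∑ j ∈ Finset.range (m + 1), C (f.coeff j) * X ^ j :=
    as_sum_range_C_mul_X_pow' f (Nat.lt_succ_of_le hd)
  have h1 : f.eval 1 = ∑ j ∈ Finset.range (m + 1), f.coeff j := by
    conv_lhs => rw [hf]
    rw [eval_finsetSum]
    simp
  have h2 : f.derivative.eval 1 = ∑ j ∈ Finset.range (m + 1), f.coeff j * (j : R) := by
    conv_lhs => rw [hf]
    rw [derivative_sum, eval_finsetSum]
    refine Finset.sum_congr rfl (fun j _ => ?_)
    rw [derivative_C_mul_X_pow]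
    simp
  have h3 : f.derivative.eval 1 = ∑ j ∈ Finset.range (m + 1), f.coeff j * ((m - j : ℕ) : R) := by
    rw [h2, ← Finset.sum_range_reflect]
    refine Finset.sum_congr rfl (fun j hj => ?_)
    rw [show m + 1 - 1 - j = m - j by omega, hc j hj]
  have h4 : f.derivative.eval 1 + f.derivative.eval 1 = m * f.eval 1 := by
    nth_rewrite 1 [h2]
    rw [h3, ← Finset.sum_add_distrib, h1, Finset.mul_sum]
    refine Finset.sum_congr rfl (fun j hj => ?_)
    have hj' : j ≤ m := Nat.lt_succ_iff.1 (Finset.mem_range.1 hj)
    rw [Nat.cast_sub hj']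
    ring
  rw [two_mul]
  exact h4

theorem mainSYM : S_SYM := by
  intro p _ m i f r hp hd hrefl hr hdvd
  have hp2 : 2 ≤ p - 1 := by
    have := (Fact.out : p.Prime).two_le
    omega
  have hdvd2 : (X - 1) ^ 2 ∣ thP p f - C r * X ^ i := (pow_dvd_pow _ hp2).trans hdvd
  obtain ⟨g, hg⟩ := hdvd2
  have e1 : (thP p f).eval 1 = r := by
    have := congrArg (eval 1) hg
    simp at this
    exact sub_eq_zero.1 this
  have e2 : (thP p f).derivative.eval 1 = r * i := by
    have := congrArg (fun h => eval 1 (derivative h)) hg
    simp only [derivative_sub, derivative_mul, derivative_C, zero_mul, zero_add, derivative_X_pow,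
      derivative_pow, derivative_one, derivative_X, eval_sub, eval_mul, eval_C, eval_pow, eval_X,
      one_pow, mul_one, eval_add, eval_one, sub_self, mul_zero, eval_natCast, sub_zero] at this
    norm_num at this
    exact sub_eq_zero.1 this
  have hval : (thP p f).eval 1 = f.eval 1 ^ (half p).card := by
    unfold thP
    rw [eval_prod]
    simp only [eval_comp, eval_pow, eval_X, one_pow, Finset.prod_const]
  have hder : (thP p f).derivative.eval 1 * f.eval 1
      = f.derivative.eval 1 * f.eval 1 ^ (half p).card * hs p := by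
    unfold thP
    rw [derivative_prod_finset, eval_finsetSum]
    unfold hs
    rw [Finset.sum_mul, Finset.mul_sum]
    refine Finset.sum_congr rfl (fun t ht => ?_)
    rw [eval_mul, eval_prod, derivative_comp, derivative_X_pow]
    simp only [eval_comp, eval_pow, eval_X, one_pow, eval_mul, eval_C, mul_one,
      Finset.prod_const]
    rw [Finset.card_erase_of_mem ht]
    have h1 : (half p).card - 1 + 1 = (half p).card :=
      Nat.sub_add_cancel (Finset.card_pos.2 ⟨t, ht⟩)
    have h2 : f.eval 1 ^ (half p).card = f.eval 1 ^ ((half p).card - 1) * f.eval 1 := by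
      rw [← pow_succ, h1]
    have h3 : (((((t⁻¹ : (ZMod p)ˣ) : ZMod p).val : ℕ) : ZMod p))
        = ((t⁻¹ : (ZMod p)ˣ) : ZMod p) := ZMod.natCast_zmod_val _
    rw [h2, h3]
    ring
  have hpal := palin m f hd hrefl
  rcases Nat.eq_zero_or_pos (half p).card with h0 | h0
  · have h1 : half p = ∅ := Finset.card_eq_zero.1 h0
    have h2 : (thP p f).derivative.eval 1 = 0 := by
      unfold thP
      rw [h1, Finset.prod_empty, derivative_one, eval_zero]
    have h3 : hs p = 0 := by
      unfold hs
      rw [h1, Finset.sum_empty]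
    rw [h2] at e2
    have h4 : (i : ZMod p) = 0 := by
      rcases mul_eq_zero.1 e2.symm with h | h
      · exact absurd h hr
      · exact h
    rw [h3, h4]
    ring
  · have hf1 : f.eval 1 ≠ 0 := by
      intro h
      rw [h, zero_pow h0.ne', e1] at hval
      exact hr hval
    rw [← hval, e1, e2] at hder
    have h5 : r * f.eval 1 * (2 * (i : ZMod p)) = r * f.eval 1 * (m * hs p) := by
      calc r * f.eval 1 * (2 * (i : ZMod p)) = 2 * (r * i * f.eval 1) := by ring
        _ = 2 * (f.derivative.eval 1 * r * hs p) := by rw [hder]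
        _ = (2 * f.derivative.eval 1) * (r * hs p) := by ring
        _ = (m * f.eval 1) * (r * hs p) := by rw [hpal]
        _ = r * f.eval 1 * (m * hs p) := by ring
    exact mul_left_cancel₀ (mul_ne_zero hr hf1) h5

end Pool.Agent.Y468.WQ
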